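import Pool.Agent.Helper85.PCP.Stmts

namespace PCP4

theorem dpr_gen (k Q0 q0 qh : ℕ) (tab : List (ℕ × Bool × Bool × ℕ)) (q j : ℕ)
    (hj : j < 2 + 4 * k) :
    prod k Q0 q0 qh tab ((2 + 4 * k) * q + j + 1) =
      if j = 0 then (if q = qh then none else some (blk k 2 q))
      else if j = 1 then some (blk k 3 q)
      else if (j - 2) / k = 0 then
        some (List.replicate ((k + 1) * (k - (j - 2) % k) - 1) 0 ++
          sh k (dlt k Q0 q0 tab q ((j - 2) % k)).1 ::
          List.replicate ((k + 1) * (dlt k Q0 q0 tab q ((j - 2) % k)).2.2.2)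
            (sb k (dlt k Q0 q0 tab q ((j - 2) % k)).1))
      else if (j - 2) / k = 1 then
        some (List.replicate ((k + 1) * (if (dlt k Q0 q0 tab q ((j - 2) % k)).2.2.1 then k else 1))
          (sb k (dlt k Q0 q0 tab q ((j - 2) % k)).1))
      else if (j - 2) / k = 2 then
        some (blk k 0 (dlt k Q0 q0 tab q ((j - 2) % k)).1 ++
          cps (if (dlt k Q0 q0 tab q ((j - 2) % k)).2.1 then ((j - 2) % k) else 0)
            (blk k 1 (dlt k Q0 q0 tab q ((j - 2) % k)).1))
      else some (cps (if (dlt k Q0 q0 tab q ((j - 2) % k)).2.1 then k else 1)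
        (blk k 1 (dlt k Q0 q0 tab q ((j - 2) % k)).1)) := by
  have h1 : ((2 + 4 * k) * q + j) / (2 + 4 * k) = q := by
    rw [Nat.mul_add_div (by omega), Nat.div_eq_of_lt hj, add_zero]
  have h2 : ((2 + 4 * k) * q + j) % (2 + 4 * k) = j := by
    rw [Nat.mul_add_mod, Nat.mod_eq_of_lt hj]
  unfold prod
  rw [if_neg (Nat.succ_ne_zero _)]
  simp only [Nat.add_sub_cancel, h1, h2]

theorem dpr_ty (k ty r : ℕ) (hk : 2 ≤ k) (hr : r < k) :
    (2 + ty * k + r - 2) / k = ty ∧ (2 + ty * k + r - 2) % k = r := by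
  have h : 2 + ty * k + r - 2 = k * ty + r := by
    rw [mul_comm ty k]
    omega
  rw [h]
  constructor
  · rw [Nat.mul_add_div (by omega), Nat.div_eq_of_lt hr, add_zero]
  · rw [Nat.mul_add_mod, Nat.mod_eq_of_lt hr]

theorem st_DPR : ST_DPR := by
  intro k Q0 q0 qh tab hk q
  refine ⟨?_, ?_, ?_, ?_, ?_⟩
  · unfold prod
    rw [if_pos rfl]
  · have h : sh k q = (2 + 4 * k) * q + 0 + 1 := by
      unfold sh
      ring
    rw [h, dpr_gen k Q0 q0 qh tab q 0 (by omega), if_pos rfl]
  · have h : sb k q = (2 + 4 * k) * q + 1 + 1 := by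
      unfold sb
      ring
    rw [h, dpr_gen k Q0 q0 qh tab q 1 (by omega), if_neg one_ne_zero, if_pos rfl]
  · intro r hr
    have key : ∀ ty < 4, sT k ty q r = (2 + 4 * k) * q + (2 + ty * k + r) + 1 ∧
        2 + ty * k + r < 2 + 4 * k := by
      intro ty hty
      constructor
      · unfold sT
        ring
      · nlinarith
    have hne0 : ∀ ty, 2 + ty * k + r ≠ 0 := fun ty => by omega
    have hne1 : ∀ ty, 2 + ty * k + r ≠ 1 := fun ty => by omega
    refine ⟨?_, ?_, ?_, ?_⟩
    · rw [(key 0 (by norm_num)).1, dpr_gen k Q0 q0 qh tab q _ (key 0 (by norm_num)).2,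
        if_neg (hne0 0), if_neg (hne1 0), (dpr_ty k 0 r hk hr).1, (dpr_ty k 0 r hk hr).2,
        if_pos rfl]
    · rw [(key 1 (by norm_num)).1, dpr_gen k Q0 q0 qh tab q _ (key 1 (by norm_num)).2,
        if_neg (hne0 1), if_neg (hne1 1), (dpr_ty k 1 r hk hr).1, (dpr_ty k 1 r hk hr).2,
        if_neg one_ne_zero, if_pos rfl]
    · rw [(key 2 (by norm_num)).1, dpr_gen k Q0 q0 qh tab q _ (key 2 (by norm_num)).2,
        if_neg (hne0 2), if_neg (hne1 2), (dpr_ty k 2 r hk hr).1, (dpr_ty k 2 r hk hr).2,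
        if_neg two_ne_zero, if_neg (by norm_num), if_pos rfl]
    · rw [(key 3 (by norm_num)).1, dpr_gen k Q0 q0 qh tab q _ (key 3 (by norm_num)).2,
        if_neg (hne0 3), if_neg (hne1 3), (dpr_ty k 3 r hk hr).1, (dpr_ty k 3 r hk hr).2,
        if_neg three_ne_zero, if_neg (by norm_num), if_neg (by norm_num)]
  · intro τ h1 h2
    obtain ⟨j, rfl⟩ := Nat.exists_eq_add_of_le h2
    have hj : j < 2 + 4 * k := by
      have : (2 + 4 * k) * (q + 1) = (2 + 4 * k) * q + (2 + 4 * k) := by ring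
      omega
    rcases Nat.lt_or_ge j 2 with h | h
    · have h3 : j = 0 ∨ j = 1 := by omega
      rcases h3 with rfl | rfl
      · left
        unfold sh
        ring
      · right; left
        unfold sb
        ring
    · right; right
      refine ⟨(j - 2) / k, ?_, (j - 2) % k, Nat.mod_lt _ (by omega), ?_⟩
      · apply Nat.div_lt_of_lt_mul
        rw [mul_comm]
        omega
      · unfold sT
        have h4 := Nat.div_add_mod (j - 2) k
        have h5 : (j - 2) / k * k = k * ((j - 2) / k) := mul_comm _ _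
        rw [h5]
        omega

end PCP4
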