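import Pool.Agent.Helper85.PCP.Stmts

namespace PCP4

theorem pb_take (m : ℕ) (T : List Bool) (K : ℕ) :
    T.take (K * m) = (List.range K).flatMap (fun i => (T.drop (i * m)).take m) := by
  induction K with
  | zero => simp
  | succ K ih =>
    rw [List.range_succ, List.flatMap_append, ← ih, add_mul, one_mul, List.take_add]
    simp

/-- the word of a block -/
def pb_word : List Bool → List (Fin 4)
  | [] => []
  | x :: l => (if x then 0 else 1) :: l.map (fun y => if y then 2 else 3)

theorem pb_g (m : ℕ) (U : List Bool) (B : List Bool) :
    (pb_word B).flatMap (fun i => (inst4 m U i).2) = B.flatMap (cd (m - 1)) := by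
  cases B with
  | nil => rfl
  | cons x l =>
    unfold pb_word
    rw [List.flatMap_cons, List.flatMap_cons, List.flatMap_map]
    congr 1
    · cases x <;> simp [inst4]
    · congr 1
      funext y
      cases y <;> simp [inst4]

theorem pb_S (m : ℕ) (U : List Bool) (l : List Bool) :
    (l.map (fun y => if y then (2 : Fin 4) else 3)).flatMap (fun i => (inst4 m U i).1) =
      List.replicate l.length 0 := by
  induction l with
  | nil => rfl
  | cons x l ih =>
    rw [List.map_cons, List.flatMap_cons, ih, List.length_cons, List.replicate_succ]
    cases x <;> simp [inst4]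

theorem pb_len (β : ℕ) (U : List Bool) : (U.flatMap (cd β)).length = U.length * (β + 1) := by
  induction U with
  | nil => simp
  | cons x l ih =>
    rw [List.flatMap_cons, List.length_append, ih, List.length_cons]
    unfold cd
    simp
    ring

theorem pb_R (m : ℕ) (hm : 2 ≤ m) (U : List Bool) (hU : U ≠ []) :
    (U.flatMap (cd (m - 1))).take ((U.length - 1) * m + 1) ++ List.replicate (m - 1) 0 =
      U.flatMap (cd (m - 1)) := by
  obtain ⟨V, x, rfl⟩ : ∃ V x, U = V ++ [x] := ⟨U.dropLast, U.getLast hU,
    (List.dropLast_append_getLast hU).symm⟩
  have h1 : (V ++ [x]).length - 1 = V.length := by simp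
  have h2 : V.length * m = (V.flatMap (cd (m - 1))).length := by
    rw [pb_len]
    congr 1
    omega
  rw [h1, h2, List.flatMap_append, List.take_length_add_append]
  unfold cd
  cases x <;> simp

theorem pb_h (m : ℕ) (hm : 2 ≤ m) (U : List Bool) (hU : U ≠ []) (B : List Bool)
    (hB : B.length = m) :
    (pb_word B).flatMap (fun i => (inst4 m U i).1) =
      (fW U (B.getD 0 false)).flatMap (cd (m - 1)) := by
  cases B with
  | nil =>
    simp at hB
    omega
  | cons x l =>
    have hl : l.length = m - 1 := by
      simp at hB
      omega
    unfold pb_word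
    rw [List.flatMap_cons, pb_S, hl]
    cases x
    · simp [inst4, fW, cd]
    · have := pb_R m hm U hU
      simpa [inst4, fW] using this

theorem st_PB : ST_PB := by
  rintro m U hm hU ⟨K, T, hK, hT, hTU⟩
  refine ⟨(List.range K).flatMap (fun i => pb_word ((T.drop (i * m)).take m)), ?_, ?_⟩
  · intro h
    rw [List.flatMap_eq_nil_iff] at h
    have h0 := h 0 (List.mem_range.mpr hK)
    have h1 : ((T.drop (0 * m)).take m).length = m := by
      rw [zero_mul, List.drop_zero, List.length_take, hT]
      apply min_eq_left
      nlinarith
    cases hc : (T.drop (0 * m)).take m with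
    | nil =>
      rw [hc] at h1
      simp at h1
      omega
    | cons x l =>
      rw [hc] at h0
      simp [pb_word] at h0
  · rw [List.flatMap_assoc, List.flatMap_assoc]
    have e1 : (List.range K).flatMap (fun i =>
        (pb_word ((T.drop (i * m)).take m)).flatMap (fun i => (inst4 m U i).1)) =
        (List.range K).flatMap (fun i => (fW U (T.getD (i * m) false)).flatMap (cd (m - 1))) := by
      apply List.flatMap_congr
      intro i hi
      rw [List.mem_range] at hi
      have h1 : (i + 1) * m ≤ K * m := Nat.mul_le_mul_right m hi
      have h2 : ((T.drop (i * m)).take m).length = m := by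
        rw [List.length_take, List.length_drop, hT]
        apply min_eq_left
        rw [add_mul, one_mul] at h1
        omega
      rw [pb_h m hm U hU _ h2]
      congr 2
      rw [List.getD_eq_getElem?_getD, List.getD_eq_getElem?_getD, List.getElem?_take,
        if_pos (by omega), List.getElem?_drop, add_zero]
    have e2 : (List.range K).flatMap (fun i =>
        (pb_word ((T.drop (i * m)).take m)).flatMap (fun i => (inst4 m U i).2)) =
        (List.range K).flatMap (fun i => ((T.drop (i * m)).take m).flatMap (cd (m - 1))) := by
      apply List.flatMap_congr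
      intro i _
      exact pb_g m U _
    rw [e1, e2, ← List.flatMap_assoc, ← List.flatMap_assoc, ← hTU, ← pb_take, ← hT,
      List.take_length]

end PCP4
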