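import Pool.Agent.Helper85.PCP.Stmts

namespace PCP4

theorem fin_iff (hB : ST_B) (hC : ST_C) (hD : ST_D) (hGOOD : ST_GOOD) (hDOK : ST_DOK)
    (hDDW : ST_DDW) (hPB : ST_PB) (hPF : ST_PF) (k Q0 q0 qh : ℕ)
    (tab : List (ℕ × Bool × Bool × ℕ)) (hok : AOk k Q0 q0 qh tab) (n : ℕ) :
    AHalt k Q0 q0 qh tab (q0, n, 0) ↔ Pos (inst4 (mN k Q0 n) (UN k Q0 q0 qh tab n)) := by
  have hV := hDOK k Q0 q0 qh tab hok n
  have hG : Good (mN k Q0 n) (k + 1) (trN k Q0 q0 qh tab n) := hGOOD _ _ _ _ _ _ _ hV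
  have h1 : TEq (mN k Q0 n) (UN k Q0 q0 qh tab n) ↔
      IHalt (mN k Q0 n) (trN k Q0 q0 qh tab n) (0, (trN k Q0 q0 qh tab n 0).tail) :=
    hB _ _ _ hG
  have hU : UN k Q0 q0 qh tab n ≠ [] := by
    intro h
    have h2 : (UN k Q0 q0 qh tab n).length = mN k Q0 n * LN k Q0 n := by
      unfold UN mkU
      simp
    rw [h] at h2
    have h3 := hG.hm
    have h4 : 1 ≤ LN k Q0 n := by
      unfold LN
      omega
    have h5 : 0 < mN k Q0 n * LN k Q0 n := Nat.mul_pos (by omega) h4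
    simp at h2
    omega
  have h2 : TEq (mN k Q0 n) (UN k Q0 q0 qh tab n) ↔
      Pos (inst4 (mN k Q0 n) (UN k Q0 q0 qh tab n)) :=
    ⟨hPB _ _ hG.hm hU, hPF _ _ hG.hm hU⟩
  rw [← h2, h1]
  obtain ⟨c1, c2⟩ := hC _ _ _ _ _ _ _ hV
  rw [hDDW k Q0 n hok.hk] at c1 c2
  obtain ⟨d1, d2⟩ := hD k Q0 q0 qh tab hok n
  constructor
  · intro h
    exact c1 (d1 h)
  · intro h
    by_contra hn
    exact c2 (d2 hn) h

theorem st_FIN (hB : ST_B) (hC : ST_C) (hD : ST_D) (hGOOD : ST_GOOD) (hDOK : ST_DOK)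
    (hDDW : ST_DDW) (hPB : ST_PB) (hPF : ST_PF) (hAM : ST_AM) (hCOMP : ST_COMP)
    (hLIFT : ST_LIFT) : ST_FIN := by
  apply hLIFT
  intro h
  obtain ⟨k, Q0, q0, qh, tab, hok, hnc⟩ := hAM
  apply hnc
  rw [ComputablePred.computable_iff] at h ⊢
  obtain ⟨f, hf, hpf⟩ := h
  refine ⟨fun n => f (inst4 (mN k Q0 n) (UN k Q0 q0 qh tab n)),
    hf.comp (hCOMP k Q0 q0 qh tab), ?_⟩
  funext n
  have h1 := congrFun hpf (inst4 (mN k Q0 n) (UN k Q0 q0 qh tab n))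
  rw [← h1]
  exact propext (fin_iff hB hC hD hGOOD hDOK hDDW hPB hPF k Q0 q0 qh tab hok n)

end PCP4
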